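import Pool.Agent.WIR.StmtsC

set_option autoImplicit false

namespace Pool.Agent.WIR.H16

open Pool.Agent.WIR
open scoped BigOperators

theorem nO_succ (L : ℕ) (O : Finset ℕ) (h : O ⊆ Finset.Icc 1 L) :
    nO (L + 1) O = 2 * nO L O := by
  unfold nO
  rw [Finset.mul_sum]
  refine Finset.sum_congr rfl (fun p hp => ?_)
  have hp' := Finset.mem_Icc.mp (h hp)
  have e : L + 1 - p = (L - p) + 1 := by omega
  rw [e, pow_succ]
  ring

theorem nO_insert (L : ℕ) (O : Finset ℕ) (h : O ⊆ Finset.Icc 1 L) :
    nO (L + 1) (insert (L + 1) O) = 3 ^ O.card + 2 * nO L O := by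
  have hL : L + 1 ∉ O := by
    intro hc
    have := Finset.mem_Icc.mp (h hc)
    omega
  rw [← nO_succ L O h]
  unfold nO
  rw [Finset.sum_insert hL]
  congr 1
  · have h1 : rk (insert (L + 1) O) (L + 1) = O.card := by
      unfold rk
      congr 1
      ext q
      rw [Finset.mem_filter, Finset.mem_insert]
      constructor
      · rintro ⟨h1 | h1, h2⟩
        · omega
        · exact h1
      · intro hq
        have := Finset.mem_Icc.mp (h hq)
        exact ⟨Or.inr hq, by omega⟩
    rw [h1, Nat.sub_self, pow_zero, mul_one]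
  · refine Finset.sum_congr rfl (fun p hp => ?_)
    have hp' := Finset.mem_Icc.mp (h hp)
    have h1 : rk (insert (L + 1) O) p = rk O p := by
      unfold rk
      congr 1
      ext q
      rw [Finset.mem_filter, Finset.mem_filter, Finset.mem_insert]
      constructor
      · rintro ⟨h1 | h1, h2⟩
        · omega
        · exact ⟨h1, h2⟩
      · rintro ⟨h1, h2⟩
        exact ⟨Or.inr h1, h2⟩
    rw [h1]

/-- **Row EXP**. -/
theorem exp : ExpStmt := by
  intro L
  induction L with
  | zero =>
    simp [nO]
  | succ L ih =>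
    have hins : Finset.Icc 1 (L + 1) = insert (L + 1) (Finset.Icc 1 L) := by
      ext q
      rw [Finset.mem_insert, Finset.mem_Icc, Finset.mem_Icc]
      omega
    have hnot : L + 1 ∉ Finset.Icc 1 L := by
      rw [Finset.mem_Icc]
      omega
    rw [hins, Finset.sum_powerset_insert hnot]
    have h1 : ∑ O ∈ (Finset.Icc 1 L).powerset, nO (L + 1) O
        = 2 * ∑ O ∈ (Finset.Icc 1 L).powerset, nO L O := by
      rw [Finset.mul_sum]
      exact Finset.sum_congr rfl (fun O hO => nO_succ L O (Finset.mem_powerset.mp hO))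
    have h2 : ∑ O ∈ (Finset.Icc 1 L).powerset, nO (L + 1) (insert (L + 1) O)
        = 4 ^ L + 2 * ∑ O ∈ (Finset.Icc 1 L).powerset, nO L O := by
      rw [Finset.mul_sum]
      have h3 : ∑ O ∈ (Finset.Icc 1 L).powerset, 3 ^ O.card = 4 ^ L := by
        have h4 := Finset.sum_pow_mul_eq_add_pow 3 1 (Finset.Icc 1 L)
        simp only [one_pow, mul_one, Nat.card_Icc, Nat.add_sub_cancel] at h4
        exact h4
      rw [← h3, ← Finset.sum_add_distrib]
      exact Finset.sum_congr rfl (fun O hO => nO_insert L O (Finset.mem_powerset.mp hO))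
    rw [h1, h2, pow_succ]
    linarith

end Pool.Agent.WIR.H16
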