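import Pool.Agent.WIR.StmtsC

set_option autoImplicit false

namespace Pool.Agent.WIR.H16

open Pool.Agent.WIR
open scoped BigOperators ComplexConjugate

theorem conj_ft (N : ℕ) (f : ZMod (3 ^ N) → ℝ) (ξ : ZMod (3 ^ N)) :
    conj (ft N f ξ) = ∑ y, (f y : ℂ) * ZMod.stdAddChar (ξ * y) := by
  unfold ft
  rw [map_sum]
  refine Finset.sum_congr rfl (fun y _ => ?_)
  rw [map_mul, Complex.conj_ofReal, ← AddChar.map_neg_eq_conj, neg_neg]

theorem pls_c (N : ℕ) (f : ZMod (3 ^ N) → ℝ) :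
    ∑ ξ, ft N f ξ * conj (ft N f ξ) = 3 ^ N * ∑ x, (f x : ℂ) ^ 2 := by
  have h1 : ∀ ξ : ZMod (3 ^ N), ft N f ξ * conj (ft N f ξ)
      = ∑ x, ∑ y, (f x : ℂ) * (f y : ℂ) * ZMod.stdAddChar (ξ * (y - x)) := by
    intro ξ
    rw [conj_ft]
    unfold ft
    rw [Finset.sum_mul_sum]
    refine Finset.sum_congr rfl (fun x _ => Finset.sum_congr rfl (fun y _ => ?_))
    have h2 : ξ * (y - x) = -(ξ * x) + ξ * y := by ring
    rw [h2, AddChar.map_add_eq_mul]
    ring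
  rw [Finset.sum_congr rfl (fun ξ _ => h1 ξ), Finset.sum_comm, Finset.mul_sum]
  refine Finset.sum_congr rfl (fun x _ => ?_)
  rw [Finset.sum_comm]
  have h3 : ∀ y : ZMod (3 ^ N), ∑ ξ : ZMod (3 ^ N), (f x : ℂ) * (f y : ℂ) *
      ZMod.stdAddChar (ξ * (y - x)) = if y = x then (f x : ℂ) * (f y : ℂ) * 3 ^ N else 0 := by
    intro y
    rw [← Finset.mul_sum, AddChar.sum_mulShift (y - x) (ZMod.isPrimitive_stdAddChar (3 ^ N))]
    by_cases h : y = x
    · rw [if_pos h, if_pos (by rw [h, sub_self]), ZMod.card]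
      push_cast
      ring
    · rw [if_neg h, if_neg (sub_ne_zero.mpr h), Nat.cast_zero, mul_zero]
  rw [Finset.sum_congr rfl (fun y _ => h3 y), Finset.sum_ite_eq' Finset.univ x]
  rw [if_pos (Finset.mem_univ x)]
  ring

/-- **Row PLS**. -/
theorem pls : PlsStmt := by
  intro N f
  have h := pls_c N f
  have h2 : ((∑ ξ, ‖ft N f ξ‖ ^ 2 : ℝ) : ℂ) = ((3 ^ N * ∑ x, f x ^ 2 : ℝ) : ℂ) := by
    push_cast
    rw [← h]
    refine Finset.sum_congr rfl (fun ξ _ => ?_)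
    rw [Complex.mul_conj, Complex.normSq_eq_norm_sq]
    push_cast
    rfl
  exact_mod_cast h2

end Pool.Agent.WIR.H16
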